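import Mathlib.Analysis.SpecialFunctions.Pow.Real
import Mathlib.Algebra.BigOperators.Intervals

/-!
# The coefficients of the Pfaffians (definitions)

`w q i = (q; q ^ 2)_i / (q ^ 2; q ^ 2)_i` and the antisymmetric function `psi q A B`, for `A ≥ B` equal to
`∑ q ^ i * w_i * w_j` over `i + j = A + B - 1`, `i ≥ B`, `j ≥ B`.
-/

set_option autoImplicit false

namespace Pool.Agent.H69.PF

open Finset

/-- `(q; q ^ 2)_i / (q ^ 2; q ^ 2)_i` -/
noncomputable def w (q : ℝ) (i : ℕ) : ℝ :=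
  ∏ s ∈ range i, (1 - q ^ (2 * s + 1)) / (1 - q ^ (2 * s + 2))

/-- for `A ≥ B` the sum of the `q ^ i * w_i * w_j` with `i + j = A + B - 1`, `i, j ≥ B`; antisymmetric -/
noncomputable def psi (q : ℝ) (A B : ℕ) : ℝ :=
  ∑ i ∈ Ico B A, q ^ i * w q i * w q (A + B - 1 - i) -
    ∑ i ∈ Ico A B, q ^ i * w q i * w q (A + B - 1 - i)

theorem psi_anti (q : ℝ) (A B : ℕ) : psi q B A = -psi q A B := by
  unfold psi
  rw [add_comm B A]
  ring

theorem psi_self (q : ℝ) (A : ℕ) : psi q A A = 0 := by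
  unfold psi
  simp

theorem w_zero (q : ℝ) : w q 0 = 1 := by simp [w]

theorem w_succ (q : ℝ) (i : ℕ) : w q (i + 1) = w q i * ((1 - q ^ (2 * i + 1)) / (1 - q ^ (2 * i + 2))) := by
  unfold w
  rw [prod_range_succ]

theorem w_pos {q : ℝ} (hq0 : 0 < q) (hq1 : q < 1) (i : ℕ) : 0 < w q i := by
  refine prod_pos fun s _ => div_pos ?_ ?_
  · have : q ^ (2 * s + 1) < 1 := pow_lt_one₀ hq0.le hq1 (by omega)
    linarith
  · have : q ^ (2 * s + 2) < 1 := pow_lt_one₀ hq0.le hq1 (by omega)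
    linarith

theorem w_le_one {q : ℝ} (hq0 : 0 < q) (hq1 : q < 1) (i : ℕ) : w q i ≤ 1 := by
  refine prod_le_one (fun s _ => div_nonneg ?_ ?_) fun s _ => ?_
  · have : q ^ (2 * s + 1) ≤ 1 := pow_le_one₀ hq0.le hq1.le
    linarith
  · have : q ^ (2 * s + 2) ≤ 1 := pow_le_one₀ hq0.le hq1.le
    linarith
  · rw [div_le_one]
    · have : q ^ (2 * s + 2) ≤ q ^ (2 * s + 1) := pow_le_pow_of_le_one hq0.le hq1.le (by omega)
      linarith
    · have : q ^ (2 * s + 2) < 1 := pow_lt_one₀ hq0.le hq1 (by omega)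
      linarith

end Pool.Agent.H69.PF
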