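import Pool.Agent.H69.PF.Dis
import Pool.Agent.H69.PF.Psi

/-!
# Positivity of the Pfaffians

`w q i` is the `i`-th moment of a positive measure on the atoms `q ^ (2 k)` (`hasSum_w`), and
`psi q A B` is the double integral of `(s ^ A * t ^ B - t ^ A * s ^ B) / (s - t)`.
-/

set_option autoImplicit false

namespace Pool.Agent.H69.PF

open Finset Filter Topology Pool.Agent.H47.PF

section moments

variable {q : ℝ}

theorem summable_w (hq0 : 0 < q) (hq1 : q < 1) {z : ℝ} (hz0 : 0 ≤ z) (hz1 : z < 1) :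
    Summable fun k => w q k * z ^ k := by
  refine Summable.of_nonneg_of_le (fun k => mul_nonneg (w_pos hq0 hq1 k).le (pow_nonneg hz0 k))
    (fun k => ?_) (summable_geometric_of_lt_one hz0 hz1)
  exact mul_le_of_le_one_left (pow_nonneg hz0 k) (w_le_one hq0 hq1 k)

/-- the generating function of the `w q k` -/
noncomputable def fw (q z : ℝ) : ℝ := ∑' k, w q k * z ^ k

theorem fw_eq (hq0 : 0 < q) (hq1 : q < 1) {z : ℝ} (hz0 : 0 ≤ z) (hz1 : z < 1) :
    (1 - z) * fw q z = (1 - q * z) * fw q (q ^ 2 * z) := by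
  have hz2 : q ^ 2 * z < 1 := by
    have : q ^ 2 ≤ 1 := pow_le_one₀ hq0.le hq1.le
    nlinarith
  have hz3 : 0 ≤ q ^ 2 * z := by positivity
  have hs1 := summable_w hq0 hq1 hz0 hz1
  have hs2 := summable_w hq0 hq1 hz3 hz2
  set g : ℕ → ℝ := fun k => (1 - q ^ (2 * k)) * (w q k * z ^ k) with hg
  have hg1 : ∀ k, g k = w q k * z ^ k - w q k * (q ^ 2 * z) ^ k := by
    intro k
    simp only [hg]
    rw [mul_pow, pow_mul]
    ring
  have hgs : Summable g := by
    have : g = fun k => w q k * z ^ k - w q k * (q ^ 2 * z) ^ k := funext hg1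
    rw [this]
    exact hs1.sub hs2
  have h1 : ∑' k, g k = fw q z - fw q (q ^ 2 * z) := by
    simp only [hg1]
    exact hs1.tsum_sub hs2
  have h2 : ∀ k, g (k + 1) = z * (w q k * z ^ k) - q * z * (w q k * (q ^ 2 * z) ^ k) := by
    intro k
    simp only [hg]
    rw [w_succ]
    have h3 : (1 : ℝ) - q ^ (2 * k + 2) ≠ 0 := by
      have : q ^ (2 * k + 2) < 1 := pow_lt_one₀ hq0.le hq1 (by omega)
      linarith
    have h4 : q ^ (2 * (k + 1)) = q ^ (2 * k + 2) := by ring_nf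
    rw [h4, mul_pow, ← pow_mul]
    field_simp
    ring
  have h3 : ∑' k, g k = g 0 + ∑' k, g (k + 1) := hgs.tsum_eq_zero_add
  have h4 : ∑' k, g (k + 1) = z * fw q z - q * z * fw q (q ^ 2 * z) := by
    simp only [h2]
    rw [(hs1.mul_left z).tsum_sub (hs2.mul_left (q * z)), tsum_mul_left, tsum_mul_left]
    rfl
  have h5 : g 0 = 0 := by simp [hg]
  rw [h1, h4, h5] at h3
  linarith

theorem fw_pos (hq0 : 0 < q) (hq1 : q < 1) {z : ℝ} (hz0 : 0 ≤ z) (hz1 : z < 1) : 0 < fw q z := by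
  have h1 := (summable_w hq0 hq1 hz0 hz1).sum_le_tsum (Finset.range 1)
    (fun k _ => mul_nonneg (w_pos hq0 hq1 k).le (pow_nonneg hz0 k))
  have h2 : ∑ k ∈ Finset.range 1, w q k * z ^ k = 1 := by simp [w_zero]
  rw [h2] at h1
  unfold fw
  linarith

theorem fw_odd (hq0 : 0 < q) (hq1 : q < 1) (i : ℕ) : fw q (q ^ (2 * i + 1)) = w q i * fw q q := by
  induction i with
  | zero => simp [w_zero]
  | succ i ih =>
    have hz0 : 0 ≤ q ^ (2 * i + 1) := by positivity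
    have hz1 : q ^ (2 * i + 1) < 1 := pow_lt_one₀ hq0.le hq1 (by omega)
    have h1 := fw_eq hq0 hq1 hz0 hz1
    have h2 : q ^ 2 * q ^ (2 * i + 1) = q ^ (2 * (i + 1) + 1) := by ring
    have h3 : q * q ^ (2 * i + 1) = q ^ (2 * i + 2) := by ring
    rw [h2, h3, ih] at h1
    have h4 : (0 : ℝ) < 1 - q ^ (2 * i + 2) := by
      have : q ^ (2 * i + 2) < 1 := pow_lt_one₀ hq0.le hq1 (by omega)
      linarith
    rw [w_succ]
    field_simp
    linarith

/-- the approximations of the moments -/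
noncomputable def uL (q : ℝ) (L j : ℕ) : ℝ :=
  ∑ k ∈ range L, (w q k * q ^ k / fw q q) * (q ^ (2 * k)) ^ j

/-- the approximations of the shifted moments -/
noncomputable def vL (q : ℝ) (L j : ℕ) : ℝ :=
  ∑ k ∈ range L, (w q k * q ^ k / fw q q) * (q ^ (2 * k + 1)) ^ j

theorem tendsto_uL (hq0 : 0 < q) (hq1 : q < 1) (j : ℕ) : Tendsto (fun L => uL q L j) atTop (𝓝 (w q j)) := by
  have hz0 : 0 ≤ q ^ (2 * j + 1) := by positivity
  have hz1 : q ^ (2 * j + 1) < 1 := pow_lt_one₀ hq0.le hq1 (by omega)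
  have h1 := ((summable_w hq0 hq1 hz0 hz1).hasSum.div_const (fw q q)).tendsto_sum_nat
  have h2 : (∑' k, w q k * (q ^ (2 * j + 1)) ^ k) / fw q q = w q j := by
    have h3 := fw_odd hq0 hq1 j
    unfold fw at h3 ⊢
    rw [h3]
    exact mul_div_cancel_right₀ _ (fw_pos hq0 hq1 hq0.le hq1).ne'
  rw [h2] at h1
  refine h1.congr fun L => ?_
  unfold uL
  refine Finset.sum_congr rfl fun k _ => ?_
  have h3 : (q ^ (2 * j + 1)) ^ k = q ^ k * (q ^ (2 * k)) ^ j := by
    rw [← pow_mul, ← pow_mul, ← pow_add]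
    congr 1
    ring
  rw [h3]
  ring

theorem vL_eq (L j : ℕ) : vL q L j = q ^ j * uL q L j := by
  unfold vL uL
  rw [Finset.mul_sum]
  refine Finset.sum_congr rfl fun k _ => ?_
  rw [pow_succ, mul_pow]
  ring

theorem tendsto_vL (hq0 : 0 < q) (hq1 : q < 1) (j : ℕ) :
    Tendsto (fun L => vL q L j) atTop (𝓝 (q ^ j * w q j)) := by
  simp only [vL_eq]
  exact (tendsto_uL hq0 hq1 j).const_mul _

end moments

theorem geo2 (s t : ℝ) (hst : s ≠ t) : ∀ {A B : ℕ}, B ≤ A →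
    ∑ i ∈ Ico B A, t ^ i * s ^ (A + B - 1 - i) = (s ^ A * t ^ B - t ^ A * s ^ B) / (s - t) := by
  intro A B hAB
  rw [eq_div_iff (sub_ne_zero.2 hst)]
  obtain ⟨d, rfl⟩ := Nat.exists_eq_add_of_le hAB
  rw [Finset.sum_Ico_eq_sum_range]
  have h0 : B + d - B = d := by omega
  rw [h0]
  have h1 : ∑ k ∈ range d, t ^ (B + k) * s ^ (B + d + B - 1 - (B + k)) =
      (s * t) ^ B * ∑ k ∈ range d, t ^ k * s ^ (d - 1 - k) := by
    rw [Finset.mul_sum]
    refine Finset.sum_congr rfl fun k hk => ?_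
    have hk' := Finset.mem_range.1 hk
    have h2 : B + d + B - 1 - (B + k) = B + (d - 1 - k) := by omega
    rw [h2, pow_add, pow_add, mul_pow]
    ring
  have h3 : (∑ k ∈ range d, t ^ k * s ^ (d - 1 - k)) * (t - s) = t ^ d - s ^ d := geom_sum₂_mul t s d
  rw [h1]
  have h4 : (s * t) ^ B * (∑ k ∈ range d, t ^ k * s ^ (d - 1 - k)) * (s - t) =
      -((s * t) ^ B * ((∑ k ∈ range d, t ^ k * s ^ (d - 1 - k)) * (t - s))) := by ring
  rw [h4, h3, mul_pow, pow_add, pow_add]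
  ring

theorem geo3 (s t : ℝ) (hst : s ≠ t) (A B : ℕ) :
    ∑ i ∈ Ico B A, t ^ i * s ^ (A + B - 1 - i) - ∑ i ∈ Ico A B, t ^ i * s ^ (A + B - 1 - i) =
      (s ^ A * t ^ B - t ^ A * s ^ B) / (s - t) := by
  rcases le_total B A with h | h
  · rw [Finset.Ico_eq_empty_of_le h, Finset.sum_empty, sub_zero, geo2 s t hst h]
  · rw [Finset.Ico_eq_empty_of_le h, Finset.sum_empty, zero_sub, add_comm A B, geo2 s t hst h]
    ring

/-- the approximations of `psi` -/
noncomputable def psiL (q : ℝ) (L A B : ℕ) : ℝ :=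
  ∑ i ∈ Ico B A, vL q L i * uL q L (A + B - 1 - i) -
    ∑ i ∈ Ico A B, vL q L i * uL q L (A + B - 1 - i)

theorem tendsto_psiL {q : ℝ} (hq0 : 0 < q) (hq1 : q < 1) (A B : ℕ) :
    Tendsto (fun L => psiL q L A B) atTop (𝓝 (psi q A B)) := by
  unfold psiL psi
  refine Tendsto.sub (tendsto_finsetSum _ fun i _ => ?_) (tendsto_finsetSum _ fun i _ => ?_)
  · exact (tendsto_vL hq0 hq1 i).mul (tendsto_uL hq0 hq1 _)
  · exact (tendsto_vL hq0 hq1 i).mul (tendsto_uL hq0 hq1 _)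

theorem psiL_eq {q : ℝ} (hq0 : 0 < q) (hq1 : q < 1) (L A B : ℕ) :
    psiL q L A B = ∑ e : Fin L × Fin L,
      ((w q e.1 * q ^ (e.1 : ℕ) / fw q q) * (w q e.2 * q ^ (e.2 : ℕ) / fw q q) /
        (q ^ (2 * (e.1 : ℕ)) - q ^ (2 * (e.2 : ℕ) + 1))) *
        ((q ^ (2 * (e.1 : ℕ))) ^ A * (q ^ (2 * (e.2 : ℕ) + 1)) ^ B -
          (q ^ (2 * (e.2 : ℕ) + 1)) ^ A * (q ^ (2 * (e.1 : ℕ))) ^ B) := by
  set m : ℕ → ℝ := fun k => w q k * q ^ k / fw q q with hm
  have h1 : ∀ S : Finset ℕ, ∑ i ∈ S, vL q L i * uL q L (A + B - 1 - i) =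
      ∑ k ∈ range L, ∑ l ∈ range L, m k * m l *
        ∑ i ∈ S, (q ^ (2 * l + 1)) ^ i * (q ^ (2 * k)) ^ (A + B - 1 - i) := by
    intro S
    simp only [Finset.mul_sum]
    have h2 : ∀ i ∈ S, vL q L i * uL q L (A + B - 1 - i) = ∑ k ∈ range L, ∑ l ∈ range L,
        m k * m l * ((q ^ (2 * l + 1)) ^ i * (q ^ (2 * k)) ^ (A + B - 1 - i)) := by
      intro i _
      unfold vL uL
      rw [mul_comm, Finset.sum_mul_sum]
      refine Finset.sum_congr rfl fun k _ => Finset.sum_congr rfl fun l _ => ?_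
      simp only [hm]
      ring
    rw [Finset.sum_congr rfl h2, Finset.sum_comm]
    refine Finset.sum_congr rfl fun k _ => ?_
    rw [Finset.sum_comm]
  unfold psiL
  rw [h1, h1, ← Finset.sum_sub_distrib, Fintype.sum_prod_type, Finset.sum_range]
  refine Finset.sum_congr rfl fun k _ => ?_
  rw [← Finset.sum_sub_distrib, Finset.sum_range]
  refine Finset.sum_congr rfl fun l _ => ?_
  rw [← mul_sub, geo3 _ _ (atoms_ne hq0 hq1 _ _)]
  ring

/-- the Pfaffians of the matrices `psi (ceil (lam i / 2)) (ceil (lam j / 2))` are nonnegative -/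
theorem pfs_psi_nonneg' {q : ℝ} (hq0 : 0 < q) (hq1 : q < 1) {r : ℕ} (a : Fin (2 * r) → ℕ) (ha : Antitone a) :
    0 ≤ pfs (fun i j : Fin (2 * r) => psi q (a i) (a j)) := by
  have h1 : Tendsto (fun L => pfs (fun i j : Fin (2 * r) => psiL q L (a i) (a j))) atTop
      (𝓝 (pfs (fun i j : Fin (2 * r) => psi q (a i) (a j)))) := by
    unfold pfs
    refine tendsto_finsetSum _ fun σ _ => Tendsto.const_mul _ (tendsto_finsetProd _ fun i _ => ?_)
    exact tendsto_psiL hq0 hq1 _ _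
  refine ge_of_tendsto' h1 fun L => ?_
  have h2 := dis hq0 hq1 a ha L (fun k => w q k * q ^ k / fw q q)
    (fun k => div_nonneg (mul_nonneg (w_pos hq0 hq1 k).le (by positivity)) (fw_pos hq0 hq1 hq0.le hq1).le)
    (fun k => w q k * q ^ k / fw q q)
    (fun k => div_nonneg (mul_nonneg (w_pos hq0 hq1 k).le (by positivity)) (fw_pos hq0 hq1 hq0.le hq1).le)
  simp only [psiL_eq hq0 hq1]
  exact h2

theorem pfs_psi_nonneg {q : ℝ} (hq0 : 0 < q) (hq1 : q < 1) (r : ℕ) (lam : Fin (2 * r) → ℕ)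
    (hlam : StrictAnti lam) :
    0 ≤ pfs (fun i j : Fin (2 * r) => psi q ((lam i + 1) / 2) ((lam j + 1) / 2)) := by
  refine pfs_psi_nonneg' hq0 hq1 (fun i => (lam i + 1) / 2) fun i j hij => ?_
  have := hlam.antitone hij
  show (lam j + 1) / 2 ≤ (lam i + 1) / 2
  omega

end Pool.Agent.H69.PF
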