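import Pool.Agent.H47.PF.Pair
import Mathlib.GroupTheory.Perm.Fin

/-!
# Expansion of a Pfaffian along the first row

`pfs_rec`: for an antisymmetric matrix the number `pfs` is `2 * (n + 1)` times the alternating sum of the
entries of the first row times the `pfs` of the matrices without the two rows and columns.
-/

set_option autoImplicit false

namespace Pool.Agent.H69.PF

open Equiv Finset Pool.Agent.H47.PF

variable {R : Type} [CommRing R]

/-- the permutation of `Fin (m + 1)` with `0 ↦ j` and `x + 1 ↦ j.succAbove (ρ x)` -/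
def cyp {m : ℕ} (j : Fin (m + 1)) (ρ : Perm (Fin m)) : Perm (Fin (m + 1)) :=
  (Fin.cycleRange j)⁻¹ * Equiv.Perm.decomposeFin.symm (0, ρ)

theorem cyp_zero {m : ℕ} (j : Fin (m + 1)) (ρ : Perm (Fin m)) : cyp j ρ 0 = j := by
  unfold cyp
  rw [Equiv.Perm.mul_apply, Equiv.Perm.decomposeFin_symm_apply_zero]
  exact Fin.cycleRange_symm_zero j

theorem cyp_succ {m : ℕ} (j : Fin (m + 1)) (ρ : Perm (Fin m)) (x : Fin m) :
    cyp j ρ x.succ = j.succAbove (ρ x) := by
  unfold cyp
  rw [Equiv.Perm.mul_apply, Equiv.Perm.decomposeFin_symm_apply_succ, Equiv.swap_self]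
  exact Fin.cycleRange_symm_succ j (ρ x)

theorem sg_cyp {m : ℕ} (j : Fin (m + 1)) (ρ : Perm (Fin m)) :
    sg R (cyp j ρ) = (-1) ^ (j : ℕ) * sg R ρ := by
  unfold cyp
  rw [sg_mul, sg_inv]
  unfold sg
  rw [Fin.sign_cycleRange, Equiv.Perm.decomposeFin.symm_sign]
  simp

theorem cyp_bij {m : ℕ} :
    Function.Bijective (fun x : Fin (m + 1) × Perm (Fin m) => cyp x.1 x.2) := by
  rw [Fintype.bijective_iff_injective_and_card]
  constructor
  · rintro ⟨j, ρ⟩ ⟨k, τ⟩ h
    simp only at h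
    have h1 : j = k := by
      rw [← cyp_zero j ρ, h, cyp_zero]
    subst h1
    have h2 : ρ = τ := by
      ext x
      have h3 : cyp j ρ x.succ = cyp j τ x.succ := by rw [h]
      rw [cyp_succ, cyp_succ] at h3
      exact congrArg _ (Fin.succAbove_right_injective h3)
    rw [h2]
  · rw [Fintype.card_prod, Fintype.card_perm, Fintype.card_perm, Fintype.card_fin, Fintype.card_fin,
      Nat.factorial_succ]

theorem sum_perm_cyp {m : ℕ} (G : Perm (Fin (m + 1)) → R) :
    ∑ e, G e = ∑ j : Fin (m + 1), ∑ ρ : Perm (Fin m), G (cyp j ρ) := by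
  rw [← cyp_bij.sum_comp G, Fintype.sum_prod_type]

/-- the indicator of `0` -/
def dz {N : ℕ} (x : Fin (N + 1)) : R := if x = 0 then 1 else 0

theorem sum_dz {n : ℕ} (σ : Perm (Fin (2 * n + 1 + 1))) :
    ∑ i : Fin (n + 1), ((dz (σ (p0 (n := n + 1) i)) : R) + dz (σ (p1 (n := n + 1) i))) = 1 := by
  have h1 : ∑ b : Fin (2 * (n + 1)), (dz (N := 2 * n + 1) (σ b) : R) = 1 := by
    have h2 := Equiv.sum_comp σ (fun b => (dz (N := 2 * n + 1) b : R))
    have h3 : ∑ b : Fin (2 * n + 1 + 1), (dz (N := 2 * n + 1) b : R) = 1 := by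
      unfold dz
      rw [sum_ite_eq' univ (0 : Fin (2 * n + 1 + 1)) (fun _ => (1 : R))]
      simp
    rw [← h3, ← h2]
    rfl
  rw [← h1, ← (Pool.Agent.H47.PF.pe (n + 1)).sum_comp, Fintype.sum_prod_type]
  refine sum_congr rfl fun i _ => ?_
  rw [Fin.sum_univ_two, Pool.Agent.H47.PF.pe_zero, Pool.Agent.H47.PF.pe_one]

/-- the product over the pairs -/
def fpr {n : ℕ} (A : Fin (2 * n) → Fin (2 * n) → R) (g : Fin (2 * n) → Fin (2 * n)) : R :=
  ∏ i : Fin n, A (g (p0 i)) (g (p1 i))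

theorem fpr_pairPerm {n : ℕ} (A : Fin (2 * n) → Fin (2 * n) → R) (g : Fin (2 * n) → Fin (2 * n))
    (π : Perm (Fin n)) : fpr A (g ∘ pairPerm π) = fpr A g := by
  unfold fpr
  rw [← Equiv.prod_comp π (fun i => A (g (p0 i)) (g (p1 i)))]
  refine prod_congr rfl fun i _ => ?_
  rw [Function.comp_apply, Function.comp_apply, pairPerm_p0, pairPerm_p1]

theorem p0_ne_p1 {n : ℕ} (i j : Fin n) : p0 i ≠ p1 j := by
  intro h
  have := congrArg Fin.val h
  simp only [p0, p1] at this
  omega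

theorem p0_inj {n : ℕ} {i j : Fin n} (h : p0 i = p0 j) : i = j := by
  have := congrArg Fin.val h
  simp only [p0] at this
  exact Fin.ext (by omega)

theorem p1_inj {n : ℕ} {i j : Fin n} (h : p1 i = p1 j) : i = j := by
  have := congrArg Fin.val h
  simp only [p1] at this
  exact Fin.ext (by omega)

theorem fpr_swap {n : ℕ} (A : Fin (2 * n) → Fin (2 * n) → R) (hA : ∀ i j, A j i = -A i j)
    (g : Fin (2 * n) → Fin (2 * n)) (k : Fin n) : fpr A (g ∘ swap (p0 k) (p1 k)) = -fpr A g := by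
  unfold fpr
  rw [← Finset.mul_prod_erase univ _ (mem_univ k), ← Finset.mul_prod_erase univ (fun i => A (g (p0 i)) (g (p1 i)))
    (mem_univ k), ← neg_mul]
  have h1 : A ((g ∘ swap (p0 k) (p1 k)) (p0 k)) ((g ∘ swap (p0 k) (p1 k)) (p1 k)) =
      -A (g (p0 k)) (g (p1 k)) := by
    rw [Function.comp_apply, Function.comp_apply, swap_apply_left, swap_apply_right, hA]
  rw [h1]
  refine congrArg _ (prod_congr rfl fun i hi => ?_)
  have hik : i ≠ k := (mem_erase.1 hi).1
  rw [Function.comp_apply, Function.comp_apply,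
    swap_apply_of_ne_of_ne (fun h => hik (p0_inj h)) (p0_ne_p1 i k),
    swap_apply_of_ne_of_ne (fun h => p0_ne_p1 k i h.symm) (fun h => hik (p1_inj h))]

theorem pfs_step {n : ℕ} (A : Fin (2 * (n + 1)) → Fin (2 * (n + 1)) → R) (hA : ∀ i j, A j i = -A i j) :
    pfs A = 2 * (n + 1) * ∑ σ : Perm (Fin (2 * n + 1 + 1)), sg R σ * (dz (σ 0) *
      fpr (n := n + 1) A σ) := by
  have e := Equiv.refl (Fin (2 * (n + 1)))
  set F : (Fin (2 * (n + 1)) → Fin (2 * (n + 1))) → R := fun g => fpr A g with hF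
  set D0 : Fin (n + 1) → (Fin (2 * (n + 1)) → Fin (2 * (n + 1))) → R :=
    fun i g => dz (N := 2 * n + 1) (g (p0 i)) * F g with hD0
  set D1 : Fin (n + 1) → (Fin (2 * (n + 1)) → Fin (2 * (n + 1))) → R :=
    fun i g => dz (N := 2 * n + 1) (g (p1 i)) * F g with hD1
  have h0 : pfs A = alt (Equiv.refl _) F := rfl
  have h1 : alt (Equiv.refl _) F = ∑ i : Fin (n + 1), (alt (Equiv.refl _) (D0 i) + alt (Equiv.refl _) (D1 i)) := by
    have h2 : ∀ i : Fin (n + 1), alt (Equiv.refl _) (D0 i) + alt (Equiv.refl _) (D1 i) =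
        alt (Equiv.refl _) (fun g => D0 i g + D1 i g) := fun i => (alt_add _ _ _).symm
    rw [sum_congr rfl fun i _ => h2 i, ← alt_sum]
    refine alt_congr _ fun g hg => ?_
    have h3 := sum_dz (R := R) (Equiv.ofBijective (β := Fin (2 * n + 1 + 1)) g hg)
    have h4 : ∑ i : Fin (n + 1), (D0 i g + D1 i g) =
        (∑ i : Fin (n + 1), ((dz (N := 2 * n + 1) (g (p0 i)) : R) + dz (N := 2 * n + 1) (g (p1 i)))) * F g := by
      rw [sum_mul]
      exact sum_congr rfl fun i _ => by simp only [hD0, hD1]; ring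
    rw [h4]
    have h5 : (∑ i : Fin (n + 1), ((dz (N := 2 * n + 1) (g (p0 i)) : R) + dz (N := 2 * n + 1) (g (p1 i)))) = 1 := h3
    rw [h5, one_mul]
  have h2 : ∀ i, alt (Equiv.refl _) (D0 i) = alt (Equiv.refl _) (D0 0) := by
    intro i
    have h3 := alt_comp (R := R) (Equiv.refl _) (D0 0) (pairPerm (swap 0 i))
    rw [sg_pairPerm, one_mul] at h3
    rw [← h3]
    refine alt_congr _ fun g _ => ?_
    simp only [hD0, hF]
    rw [fpr_pairPerm, Function.comp_apply, pairPerm_p0, swap_apply_left]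
  have h3 : ∀ i, alt (Equiv.refl _) (D1 i) = alt (Equiv.refl _) (D0 i) := by
    intro i
    have h4 := alt_comp (R := R) (Equiv.refl _) (D1 i) (swap (p0 i) (p1 i))
    rw [sg_swap (p0_ne_p1 i i)] at h4
    have h5 : alt (Equiv.refl _) (fun g => D1 i (g ∘ swap (p0 i) (p1 i))) =
        alt (Equiv.refl _) (fun g => -D0 i g) := by
      refine alt_congr _ fun g _ => ?_
      simp only [hD0, hD1, hF]
      rw [fpr_swap A hA, Function.comp_apply, swap_apply_right]
      ring
    rw [h5, alt_neg] at h4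
    linear_combination h4
  have h4 : alt (Equiv.refl _) (D0 0) = ∑ σ : Perm (Fin (2 * n + 1 + 1)), sg R σ * (dz (σ 0) *
      fpr (n := n + 1) A σ) := rfl
  rw [h0, h1, sum_congr rfl fun i _ => by rw [h3 i, h2 i], sum_const, card_univ, Fintype.card_fin, h4,
    nsmul_eq_mul]
  push_cast
  ring

theorem sum_dz_perm {m : ℕ} (G : Perm (Fin (m + 1)) → R) :
    ∑ σ : Perm (Fin (m + 1)), sg R σ * (dz (σ 0) * G σ) =
      ∑ e : Perm (Fin m), sg R e * G (Equiv.Perm.decomposeFin.symm (0, e)) := by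
  rw [← Equiv.sum_comp Equiv.Perm.decomposeFin.symm, Fintype.sum_prod_type, Finset.sum_eq_single 0]
  · refine sum_congr rfl fun e _ => ?_
    rw [Equiv.Perm.decomposeFin_symm_apply_zero]
    unfold sg dz
    rw [Equiv.Perm.decomposeFin.symm_sign]
    simp
  · intro p _ hp
    refine sum_eq_zero fun e _ => ?_
    rw [Equiv.Perm.decomposeFin_symm_apply_zero]
    unfold dz
    rw [if_neg hp]
    ring
  · intro h
    exact absurd (mem_univ _) h

theorem pfs_rec {n : ℕ} (A : Fin (2 * n + 1 + 1) → Fin (2 * n + 1 + 1) → R) (hA : ∀ i j, A j i = -A i j) :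
    pfs (n := n + 1) A = 2 * (n + 1) * ∑ j : Fin (2 * n + 1), (-1) ^ (j : ℕ) * A 0 j.succ *
      pfs (n := n) (fun a b => A (j.succAbove a).succ (j.succAbove b).succ) := by
  rw [pfs_step A hA]
  refine congrArg _ ?_
  refine (sum_dz_perm (m := 2 * n + 1) (fun σ => fpr (n := n + 1) A σ)).trans ?_
  rw [sum_perm_cyp]
  refine sum_congr rfl fun j _ => ?_
  unfold pfs
  rw [mul_sum]
  refine sum_congr rfl fun ρ _ => ?_
  rw [sg_cyp]
  set σ : Perm (Fin (2 * n + 1 + 1)) := Equiv.Perm.decomposeFin.symm (0, cyp j ρ) with hσ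
  have h0 : σ 0 = 0 := by rw [hσ, Equiv.Perm.decomposeFin_symm_apply_zero]
  have hs : ∀ x : Fin (2 * n + 1), σ x.succ = (cyp j ρ x).succ := by
    intro x
    rw [hσ, Equiv.Perm.decomposeFin_symm_apply_succ, Equiv.swap_self]
    rfl
  have h1 : fpr (n := n + 1) A σ = A 0 j.succ *
      ∏ i : Fin n, A (j.succAbove (ρ (p0 i))).succ (j.succAbove (ρ (p1 i))).succ := by
    unfold fpr
    rw [Fin.prod_univ_succ]
    have e0 : (p0 (0 : Fin (n + 1)) : Fin (2 * (n + 1))) = (0 : Fin (2 * n + 1 + 1)) := rfl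
    have e1 : (p1 (0 : Fin (n + 1)) : Fin (2 * (n + 1))) = ((0 : Fin (2 * n + 1)).succ : Fin (2 * n + 1 + 1)) := rfl
    have e2 : ∀ i : Fin n, (p0 i.succ : Fin (2 * (n + 1))) = ((p0 i).succ.succ : Fin (2 * n + 1 + 1)) := by
      intro i
      apply Fin.ext
      simp [p0]
      omega
    have e3 : ∀ i : Fin n, (p1 i.succ : Fin (2 * (n + 1))) = ((p1 i).succ.succ : Fin (2 * n + 1 + 1)) := by
      intro i
      apply Fin.ext
      simp [p1]
      omega
    rw [e0, e1, h0, hs, cyp_zero]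
    refine congrArg _ (prod_congr rfl fun i _ => ?_)
    rw [e2, e3, hs, hs, cyp_succ, cyp_succ]
  rw [h1]
  unfold sg
  ring

end Pool.Agent.H69.PF
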