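import Pool.Agent.H53.RQ.Defs
import Pool.Agent.H69.PF.Rec
import Pool.Agent.H69.PF.PosB

/-!
# Part (B) for MP_1e629d_co: the coefficients are nonnegative

`pfs_eq_pf`: for an antisymmetric array the list Pfaffian `pf` of `H53.RQ` is `pfs / (2 ^ n * n!)`.
`partB`: `0 ≤ cf q (dl s)` for `0 < q < 1`.
-/

set_option autoImplicit false

namespace Pool.Agent.H69.PF

open Finset Pool.Agent.H47.PF Pool.H53.RQ

theorem getD_eraseIdx (l : List ℕ) (j x : ℕ) :
    (l.eraseIdx j).getD x 0 = l.getD (if x < j then x else x + 1) 0 := by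
  rw [List.getD_eq_getElem?_getD, List.getD_eq_getElem?_getD, List.getElem?_eraseIdx]
  split_ifs <;> rfl

theorem val_succAbove {m : ℕ} (j : Fin (m + 1)) (x : Fin m) :
    ((j.succAbove x : Fin (m + 1)) : ℕ) = if (x : ℕ) < (j : ℕ) then (x : ℕ) else (x : ℕ) + 1 := by
  unfold Fin.succAbove
  by_cases h : x.castSucc < j
  · rw [if_pos h]
    have h' : (x : ℕ) < (j : ℕ) := h
    rw [if_pos h']
    rfl
  · rw [if_neg h]
    have h' : ¬ (x : ℕ) < (j : ℕ) := h
    rw [if_neg h']
    rfl

theorem pf_cons (A : ℕ → ℕ → ℝ) (a : ℕ) (l' : List ℕ) :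
    pf A (a :: l') = ∑ j : Fin l'.length, (-1) ^ (j : ℕ) * A a (l'.get j) * pf A (l'.eraseIdx j) := by
  rw [pf]

theorem pfs_eq_pf (A : ℕ → ℕ → ℝ) (hA : ∀ a b, A b a = -A a b) :
    ∀ (n : ℕ) (l : List ℕ), l.length = 2 * n →
      pfs (fun i j : Fin (2 * n) => A (l.getD i 0) (l.getD j 0)) = 2 ^ n * (n.factorial : ℝ) * pf A l := by
  intro n
  induction n with
  | zero =>
    intro l hl
    have h1 : l = [] := List.eq_nil_of_length_eq_zero (by simpa using hl)
    subst h1
    rw [pf]
    unfold pfs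
    simp
  | succ n ih =>
    intro l hl
    match l, hl with
    | [], hl => simp at hl
    | a :: l', hl =>
      have hl' : l'.length = 2 * n + 1 := by
        simp only [List.length_cons] at hl
        omega
      have h1 := pfs_rec (n := n) (fun i j : Fin (2 * n + 1 + 1) => A ((a :: l').getD i 0) ((a :: l').getD j 0))
        (fun i j => hA _ _)
      refine h1.trans ?_
      rw [pf_cons]
      have h2 : ∀ j : Fin (2 * n + 1),
          pfs (n := n) (fun x y => A ((a :: l').getD ((j.succAbove x).succ : Fin (2 * n + 1 + 1)) 0)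
            ((a :: l').getD ((j.succAbove y).succ : Fin (2 * n + 1 + 1)) 0)) =
          2 ^ n * (n.factorial : ℝ) * pf A (l'.eraseIdx j) := by
        intro j
        rw [← ih (l'.eraseIdx j) (by
          rw [List.length_eraseIdx_of_lt (by rw [hl']; exact j.isLt), hl']
          omega)]
        refine congrArg _ (funext fun x => funext fun y => ?_)
        rw [getD_eraseIdx, getD_eraseIdx, ← val_succAbove, ← val_succAbove]
        rfl
      have h3 : ∀ j : Fin (2 * n + 1), ((a :: l').getD (j.succ : Fin (2 * n + 1 + 1)) 0) = l'.getD j 0 :=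
        fun j => rfl
      refine (congrArg (fun t => 2 * ((n : ℝ) + 1) * t) (sum_congr rfl fun j _ =>
        congrArg (fun t => _ * t) (h2 j))).trans ?_
      simp only [h3]
      rw [← (finCongr hl').sum_comp]
      rw [Nat.factorial_succ, mul_sum, mul_sum]
      refine sum_congr rfl fun j _ => ?_
      have h4 : l'.getD ((finCongr hl' j : Fin (2 * n + 1)) : ℕ) 0 = l'.get j := by
        rw [finCongr_apply, Fin.val_cast, List.getD_eq_getElem _ _ j.isLt]
        rfl
      have h5 : (a :: l').getD ((0 : Fin (2 * n + 1 + 1)) : ℕ) 0 = a := rfl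
      rw [h4, h5, finCongr_apply, Fin.val_cast]
      push_cast
      ring

theorem psi_eq (q : ℝ) (A B : ℕ) : Pool.H53.RQ.psi q A B = Pool.Agent.H69.PF.psi q A B := rfl

theorem Akm_anti (q : ℝ) (a b : ℕ) : Akm q b a = -Akm q a b := psi_anti q _ _

/-- the Pfaffian of a decreasing list of even length is nonnegative -/
theorem pf_Akm_nonneg {q : ℝ} (hq0 : 0 < q) (hq1 : q < 1) (l : List ℕ) (hl : l.Pairwise (· ≥ ·))
    (he : Even l.length) : 0 ≤ pf (Akm q) l := by
  obtain ⟨r, hr⟩ := he
  have hr' : l.length = 2 * r := by omega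
  have h1 := pfs_eq_pf (Akm q) (Akm_anti q) r l hr'
  have h2 : 0 ≤ pfs (fun i j : Fin (2 * r) => Akm q (l.getD i 0) (l.getD j 0)) := by
    refine pfs_psi_nonneg' hq0 hq1 (fun i : Fin (2 * r) => (l.getD i 0 + 1) / 2) fun i j hij => ?_
    have h3 : l.getD j 0 ≤ l.getD i 0 := by
      rcases eq_or_lt_of_le hij with h | h
      · rw [h]
      · have hi : (i : ℕ) < l.length := by rw [hr']; exact i.isLt
        have hj : (j : ℕ) < l.length := by rw [hr']; exact j.isLt
        rw [List.getD_eq_getElem _ _ hi, List.getD_eq_getElem _ _ hj]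
        exact List.pairwise_iff_getElem.1 hl _ _ hi hj h
    show (l.getD j 0 + 1) / 2 ≤ (l.getD i 0 + 1) / 2
    omega
  rw [h1] at h2
  have h4 : (0 : ℝ) < 2 ^ r * (r.factorial : ℝ) := by positivity
  exact nonneg_of_mul_nonneg_right h2 h4

theorem cf_nonneg {q : ℝ} (hq0 : 0 < q) (hq1 : q < 1) (l : List ℕ) (hl : l.Pairwise (· ≥ ·)) :
    0 ≤ cf q l := by
  unfold cf
  split_ifs with h
  · exact pf_Akm_nonneg hq0 hq1 l hl h
  · refine pf_Akm_nonneg hq0 hq1 _ ?_ ?_
    · rw [List.pairwise_append]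
      refine ⟨hl, List.pairwise_singleton _ _, fun a _ b hb => ?_⟩
      rw [List.mem_singleton.1 hb]
      exact Nat.zero_le a
    · rw [List.length_append, List.length_singleton]
      exact (Nat.not_even_iff_odd.1 h).add_one

/-- Part (B): the coefficients are nonnegative. -/
theorem partB (q : ℝ) (hq0 : 0 < q) (hq1 : q < 1) (s : Finset ℕ) (_hs : 0 ∉ s) : 0 ≤ cf q (dl s) := by
  refine cf_nonneg hq0 hq1 _ ?_
  unfold dl
  rw [List.pairwise_reverse]
  exact s.pairwise_sort (· ≤ ·)

end Pool.Agent.H69.PF
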