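import Mathlib
import Pool.Agent.H47.PF.Defs

/-!
# The formula of de Bruijn for the alternating sums `pfs`
-/

set_option autoImplicit false

namespace Pool.Agent.H69.PF

open Finset Matrix Equiv Pool.Agent.H47.PF

/-- pairs -/
def pe (n : ℕ) : Fin n × Fin 2 ≃ Fin (2 * n) := finProdFinEquiv.trans (finCongr (Nat.mul_comm n 2))

theorem pe_zero {n : ℕ} (i : Fin n) : pe n (i, 0) = p0 i := by
  apply Fin.ext
  simp [pe, p0, finProdFinEquiv]

theorem pe_one {n : ℕ} (i : Fin n) : pe n (i, 1) = p1 i := by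
  apply Fin.ext
  simp [pe, p1, finProdFinEquiv]
  ring

variable {R : Type} [CommRing R]

theorem pfs_eq {n : ℕ} (A : Fin (2 * n) → Fin (2 * n) → R) :
    pfs A = ∑ σ : Perm (Fin n × Fin 2), (((Perm.sign σ : ℤˣ) : ℤ) : R) *
      ∏ i : Fin n, A (pe n (σ (i, 0))) (pe n (σ (i, 1))) := by
  unfold pfs
  rw [← Equiv.sum_comp (Equiv.permCongr (pe n))]
  refine Finset.sum_congr rfl fun σ _ => ?_
  rw [Equiv.Perm.sign_permCongr]
  congr 1
  refine Finset.prod_congr rfl fun i _ => ?_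
  rw [← pe_zero, ← pe_one, Equiv.permCongr_apply, Equiv.permCongr_apply, Equiv.symm_apply_apply,
    Equiv.symm_apply_apply]

theorem perm2 (X : Fin 2 → Fin 2 → R) :
    X 0 1 - X 1 0 = ∑ ρ : Perm (Fin 2), (((Perm.sign ρ : ℤˣ) : ℤ) : R) * X (ρ 0) (ρ 1) := by
  have h := Matrix.det_fin_two (Matrix.of fun i j : Fin 2 => (0 : R))
  have huniv : (Finset.univ : Finset (Perm (Fin 2))) = {1, Equiv.swap 0 1} := by decide
  rw [huniv, Finset.sum_insert (by decide), Finset.sum_singleton]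
  simp
  ring

theorem swap2 {n : ℕ} (X : Fin n → Fin n × Fin 2 → Fin n × Fin 2 → R) :
    ∑ σ : Perm (Fin n × Fin 2), (((Perm.sign σ : ℤˣ) : ℤ) : R) *
        ∏ i, (X i (σ (i, 0)) (σ (i, 1)) - X i (σ (i, 1)) (σ (i, 0))) =
      2 ^ n * ∑ σ : Perm (Fin n × Fin 2), (((Perm.sign σ : ℤˣ) : ℤ) : R) *
        ∏ i, X i (σ (i, 0)) (σ (i, 1)) := by
  have h1 : ∀ σ : Perm (Fin n × Fin 2), ∏ i, (X i (σ (i, 0)) (σ (i, 1)) - X i (σ (i, 1)) (σ (i, 0))) =
      ∑ ρ : Fin n → Perm (Fin 2), ∏ i, ((((Perm.sign (ρ i) : ℤˣ) : ℤ) : R) *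
        X i (σ (i, ρ i 0)) (σ (i, ρ i 1))) := by
    intro σ
    have h0 := Finset.prod_univ_sum (fun _ : Fin n => (Finset.univ : Finset (Perm (Fin 2))))
      (fun i ρ => (((Perm.sign ρ : ℤˣ) : ℤ) : R) * X i (σ (i, ρ 0)) (σ (i, ρ 1)))
    rw [Fintype.piFinset_univ] at h0
    rw [← h0]
    refine Finset.prod_congr rfl fun i _ => ?_
    exact perm2 fun a b => X i (σ (i, a)) (σ (i, b))
  simp only [h1, Finset.mul_sum]
  rw [Finset.sum_comm]
  have h2 : ∀ ρ : Fin n → Perm (Fin 2), ∑ σ : Perm (Fin n × Fin 2), (((Perm.sign σ : ℤˣ) : ℤ) : R) *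
      ∏ i, ((((Perm.sign (ρ i) : ℤˣ) : ℤ) : R) * X i (σ (i, ρ i 0)) (σ (i, ρ i 1))) =
      ∑ σ : Perm (Fin n × Fin 2), (((Perm.sign σ : ℤˣ) : ℤ) : R) * ∏ i, X i (σ (i, 0)) (σ (i, 1)) := by
    intro ρ
    rw [← Equiv.sum_comp (Equiv.mulRight (Equiv.prodCongrRight ρ : Perm (Fin n × Fin 2)))
      (fun σ : Perm (Fin n × Fin 2) => (((Perm.sign σ : ℤˣ) : ℤ) : R) * ∏ i, X i (σ (i, 0)) (σ (i, 1)))]
    refine Finset.sum_congr rfl fun σ _ => ?_
    rw [Equiv.coe_mulRight, Perm.sign_mul, Equiv.Perm.sign_prodCongrRight, Finset.prod_mul_distrib]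
    simp only [Perm.mul_apply, Equiv.prodCongrRight_apply]
    push_cast
    ring
  simp only [h2]
  rw [Finset.sum_const, Finset.card_univ, Fintype.card_fun, Fintype.card_perm, Fintype.card_fin,
    Fintype.card_fin, nsmul_eq_mul, ← Finset.mul_sum]
  simp

theorem det_pairs {n : ℕ} (u v : Fin n → Fin n × Fin 2 → R) :
    ∑ σ : Perm (Fin n × Fin 2), (((Perm.sign σ : ℤˣ) : ℤ) : R) * ∏ i, (u i (σ (i, 0)) * v i (σ (i, 1))) =
      (Matrix.of fun p p' : Fin n × Fin 2 => if p.2 = 0 then u p.1 p' else v p.1 p').det := by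
  rw [← Matrix.det_transpose, Matrix.det_apply']
  refine Finset.sum_congr rfl fun σ _ => ?_
  congr 1
  rw [Fintype.prod_prod_type]
  refine Finset.prod_congr rfl fun i _ => ?_
  rw [Fin.prod_univ_two]
  simp [Matrix.transpose_apply]

theorem deBruijn {n : ℕ} {E : Type} [Fintype E] (c : E → R) (u v : E → Fin (2 * n) → R) :
    pfs (fun x y => ∑ e, c e * (u e x * v e y - v e x * u e y)) =
      2 ^ n * ∑ f : Fin n → E, (∏ i, c (f i)) * (Matrix.of fun p p' : Fin n × Fin 2 =>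
        if p.2 = 0 then u (f p.1) (pe n p') else v (f p.1) (pe n p')).det := by
  rw [pfs_eq]
  have h1 : ∀ σ : Perm (Fin n × Fin 2),
      ∏ i : Fin n, ∑ e, c e * (u e (pe n (σ (i, 0))) * v e (pe n (σ (i, 1))) -
        v e (pe n (σ (i, 0))) * u e (pe n (σ (i, 1)))) =
      ∑ f : Fin n → E, (∏ i, c (f i)) * ∏ i, (u (f i) (pe n (σ (i, 0))) * v (f i) (pe n (σ (i, 1))) -
        u (f i) (pe n (σ (i, 1))) * v (f i) (pe n (σ (i, 0)))) := by
    intro σ
    rw [Finset.prod_univ_sum, Fintype.piFinset_univ]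
    refine Finset.sum_congr rfl fun f _ => ?_
    rw [← Finset.prod_mul_distrib]
    refine Finset.prod_congr rfl fun i _ => ?_
    ring
  simp only [h1, Finset.mul_sum]
  rw [Finset.sum_comm]
  refine Finset.sum_congr rfl fun f _ => ?_
  have h2 := swap2 (n := n) (fun i p p' => u (f i) (pe n p) * v (f i) (pe n p'))
  have h3 := det_pairs (n := n) (fun i p => u (f i) (pe n p)) (fun i p => v (f i) (pe n p))
  rw [h3] at h2
  calc _ = (∏ i, c (f i)) * ∑ σ : Perm (Fin n × Fin 2), (((Perm.sign σ : ℤˣ) : ℤ) : R) *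
        ∏ i, (u (f i) (pe n (σ (i, 0))) * v (f i) (pe n (σ (i, 1))) -
        u (f i) (pe n (σ (i, 1))) * v (f i) (pe n (σ (i, 0)))) := by
        rw [Finset.mul_sum]
        refine Finset.sum_congr rfl fun σ _ => ?_
        ring
    _ = _ := by
        rw [h2]
        ring

end Pool.Agent.H69.PF
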