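import Mathlib.LinearAlgebra.Vandermonde

/-!
# The Cauchy determinant
-/

set_option autoImplicit false

namespace Pool.Agent.H69.PF

open Finset Matrix

theorem det_ones0 {F : Type} [Field F] {N : ℕ} (A : Matrix (Fin (N + 1)) (Fin (N + 1)) F) (h : ∀ i, A i 0 = 1) :
    A.det = (Matrix.of fun i j : Fin N => A i.succ j.succ - A 0 j.succ).det := by
  let B : Matrix (Fin (N + 1)) (Fin (N + 1)) F :=
    Matrix.of (Fin.cons (A 0) fun i j => A i.succ j - A 0 j)
  have h0 : ∀ j, B 0 j = A 0 j := fun j => rfl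
  have h1 : ∀ (i : Fin N) j, B i.succ j = A i.succ j - A 0 j := fun i j => rfl
  have h2 : A.det = B.det := by
    refine Matrix.det_eq_of_forall_row_eq_smul_add_const (Fin.cons 0 fun _ => 1) 0 rfl fun i j => ?_
    refine Fin.cases ?_ (fun i => ?_) i
    · rw [h0, Fin.cons_zero]
      ring
    · rw [h0, h1, Fin.cons_succ]
      ring
  rw [h2, Matrix.det_succ_column_zero, Finset.sum_eq_single (0 : Fin (N + 1))]
  · rw [h0, h]
    simp only [Fin.val_zero, pow_zero, one_mul]
    congr 1
  · intro i _ hi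
    obtain ⟨k, rfl⟩ := Fin.exists_succ_eq.2 hi
    rw [h1, h, h]
    ring
  · intro h3
    exact absurd (Finset.mem_univ _) h3

theorem cauchy {F : Type} [Field F] : ∀ {n : ℕ} (s t : Fin n → F), (∀ i j, s i ≠ t j) →
    (Matrix.of fun i j : Fin n => 1 / (s i - t j)).det * ∏ i, ∏ j, (s i - t j) =
      ∏ i, ∏ j ∈ Ioi i, ((s i - s j) * (t j - t i)) := by
  intro n
  induction n with
  | zero =>
    intro s t _
    simp
  | succ n ih =>
    intro s t h
    have hne : ∀ i j, s i - t j ≠ 0 := fun i j => sub_ne_zero.2 (h i j)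
    have h1 : (Matrix.of fun i j : Fin (n + 1) => 1 / (s i - t j)) =
        Matrix.of fun i j : Fin (n + 1) => (1 / (s i - t 0)) *
          (Matrix.of fun i j : Fin (n + 1) => (s i - t 0) / (s i - t j)) i j := by
      ext i j
      simp only [Matrix.of_apply]
      field_simp [hne i 0]
    rw [h1, Matrix.det_mul_column, det_ones0 _ (fun i => by
      simp only [Matrix.of_apply]
      exact div_self (hne i 0))]
    have h2 : (Matrix.of fun i j : Fin n =>
        (Matrix.of fun i j : Fin (n + 1) => (s i - t 0) / (s i - t j)) i.succ j.succ -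
        (Matrix.of fun i j : Fin (n + 1) => (s i - t 0) / (s i - t j)) 0 j.succ) =
        Matrix.of fun i j : Fin n => (s 0 - s i.succ) * (Matrix.of fun i j : Fin n =>
          ((t j.succ - t 0) / (s 0 - t j.succ)) * (Matrix.of fun i j : Fin n =>
            1 / (s i.succ - t j.succ)) i j) i j := by
      ext i j
      simp only [Matrix.of_apply]
      have ha := hne i.succ j.succ
      have hb := hne 0 j.succ
      field_simp
      ring
    rw [h2, Matrix.det_mul_column, Matrix.det_mul_row]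
    have h3 := ih (fun i => s i.succ) (fun j => t j.succ) (fun i j => h _ _)
    have h4 : ∏ i : Fin (n + 1), ∏ j : Fin (n + 1), (s i - t j) =
        (∏ i : Fin (n + 1), (s i - t 0)) * ((∏ j : Fin n, (s 0 - t j.succ)) *
          ∏ i : Fin n, ∏ j : Fin n, (s i.succ - t j.succ)) := by
      rw [← Fin.prod_univ_succ (fun i : Fin (n + 1) => ∏ j : Fin n, (s i - t j.succ)), ← Finset.prod_mul_distrib]
      refine Finset.prod_congr rfl fun i _ => ?_
      rw [Fin.prod_univ_succ]
    have h5 : ∏ i : Fin (n + 1), ∏ j ∈ Ioi i, ((s i - s j) * (t j - t i)) =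
        ((∏ j : Fin n, (s 0 - s j.succ)) * ∏ j : Fin n, (t j.succ - t 0)) *
          ∏ i : Fin n, ∏ j ∈ Ioi i, ((s i.succ - s j.succ) * (t j.succ - t i.succ)) := by
      rw [Fin.prod_univ_succ, Fin.prod_Ioi_zero, Finset.prod_mul_distrib]
      congr 1
      refine Finset.prod_congr rfl fun i _ => ?_
      rw [Fin.prod_Ioi_succ]
    rw [h4, h5, ← h3]
    have h6 : ∏ i : Fin (n + 1), (1 / (s i - t 0)) = (∏ i : Fin (n + 1), (s i - t 0))⁻¹ := by
      rw [← Finset.prod_inv_distrib]
      exact Finset.prod_congr rfl fun i _ => one_div _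
    have h7 : ∏ j : Fin n, ((t j.succ - t 0) / (s 0 - t j.succ)) =
        (∏ j : Fin n, (t j.succ - t 0)) * (∏ j : Fin n, (s 0 - t j.succ))⁻¹ := by
      rw [Finset.prod_div_distrib, div_eq_mul_inv]
    rw [h6, h7]
    have h8 : ∏ i : Fin (n + 1), (s i - t 0) ≠ 0 := Finset.prod_ne_zero_iff.2 fun i _ => hne i 0
    have h9 : ∏ j : Fin n, (s 0 - t j.succ) ≠ 0 := Finset.prod_ne_zero_iff.2 fun j _ => hne 0 _
    field_simp

end Pool.Agent.H69.PF
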