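import Pool.Agent.H69.PF.Vd

/-!
# Positivity of the alternating sums for finite sums over atoms

The atoms are `s_k = q ^ (2 k)` and `t_l = q ^ (2 l + 1)`.
-/

set_option autoImplicit false

namespace Pool.Agent.H69.PF

open Finset Matrix Equiv Pool.Agent.H47.PF

/-- the determinant of the atoms `k`, `l` -/
noncomputable def dM (q : ℝ) {r : ℕ} (a : Fin (2 * r) → ℕ) (k l : Fin r → ℕ) : ℝ :=
  (Matrix.of fun p p' : Fin r × Fin 2 =>
    if p.2 = 0 then (q ^ (2 * k p.1)) ^ a (pe r p') else (q ^ (2 * l p.1 + 1)) ^ a (pe r p')).det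

/-- the Cauchy determinant of the atoms -/
noncomputable def dK (q : ℝ) {r : ℕ} (k l : Fin r → ℕ) : ℝ :=
  (Matrix.of fun i j : Fin r => 1 / (q ^ (2 * k i) - q ^ (2 * l j + 1))).det

theorem atoms_ne {q : ℝ} (hq0 : 0 < q) (hq1 : q < 1) (k l : ℕ) : q ^ (2 * k) ≠ q ^ (2 * l + 1) := by
  intro h
  have := (pow_right_injective₀ hq0 hq1.ne) h
  omega

theorem dK_dM {q : ℝ} (hq0 : 0 < q) (hq1 : q < 1) {r : ℕ} (a : Fin (2 * r) → ℕ) (ha : Antitone a)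
    (k l : Fin r → ℕ) : 0 ≤ dK q k l * dM q a k l := by
  set m : Fin (2 * r) → ℕ := fun x => if ((pe r).symm x).2 = 0 then 2 * k ((pe r).symm x).1
    else 2 * l ((pe r).symm x).1 + 1 with hm
  set y : Fin (2 * r) → ℝ := fun x => q ^ m x with hy
  have h1 : dM q a k l = (Matrix.of fun i j : Fin (2 * r) => (q ^ m i) ^ a j).det := by
    rw [← Matrix.det_submatrix_equiv_self (pe r)]
    unfold dM
    congr 1
    ext p p'
    simp only [Matrix.of_apply, Matrix.submatrix_apply, hm, Equiv.symm_apply_apply]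
    split_ifs <;> rfl
  have h2 := gv2 hq0.le hq1.le m a ha
  rw [← h1] at h2
  have h3 : Wp y = (∏ i, ∏ j ∈ Ioi i, ((q ^ (2 * k i) - q ^ (2 * k j)) *
      (q ^ (2 * l j + 1) - q ^ (2 * l i + 1)))) * ∏ i, ∏ j, (q ^ (2 * k i) - q ^ (2 * l j + 1)) := by
    refine Wp_pairs y (fun i => q ^ (2 * k i)) (fun i => q ^ (2 * l i + 1)) (fun i => ?_) (fun i => ?_)
    · rw [← pe_zero]
      simp only [hy, hm, Equiv.symm_apply_apply]
      simp
    · rw [← pe_one]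
      simp only [hy, hm, Equiv.symm_apply_apply]
      simp
  have h4 := cauchy (fun i => q ^ (2 * k i)) (fun j => q ^ (2 * l j + 1)) (fun i j => atoms_ne hq0 hq1 _ _)
  have h4' : dK q k l * (∏ i, ∏ j, (q ^ (2 * k i) - q ^ (2 * l j + 1))) =
      ∏ i, ∏ j ∈ Ioi i, ((q ^ (2 * k i) - q ^ (2 * k j)) * (q ^ (2 * l j + 1) - q ^ (2 * l i + 1))) := h4
  have h5 : (∏ i, ∏ j, (q ^ (2 * k i) - q ^ (2 * l j + 1))) ≠ 0 :=
    Finset.prod_ne_zero_iff.2 fun i _ => Finset.prod_ne_zero_iff.2 fun j _ =>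
      sub_ne_zero.2 (atoms_ne hq0 hq1 _ _)
  have h6 : dK q k l * Wp y = (∏ i, ∏ j ∈ Ioi i, ((q ^ (2 * k i) - q ^ (2 * k j)) *
      (q ^ (2 * l j + 1) - q ^ (2 * l i + 1)))) ^ 2 := by
    rw [h3, ← h4']
    ring
  by_cases h7 : Wp y = 0
  · rw [h7, mul_zero] at h6
    have h8 := pow_eq_zero_iff (two_ne_zero) |>.1 h6.symm
    rw [h8] at h4'
    rcases mul_eq_zero.1 h4' with h9 | h9
    · rw [h9, zero_mul]
    · exact absurd h9 h5
  · have h8 : 0 ≤ dK q k l * dM q a k l * (Wp y * Wp y) := by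
      have h9 : 0 ≤ dK q k l * Wp y := by
        rw [h6]
        positivity
      have h10 := mul_nonneg h9 h2
      calc (0 : ℝ) ≤ _ := h10
        _ = _ := by
          show dK q k l * Wp y * (dM q a k l * Wp y) = _
          ring
    have h11 : 0 < Wp y * Wp y := mul_self_pos.2 h7
    exact nonneg_of_mul_nonneg_left h8 h11

theorem dM_perm (q : ℝ) {r : ℕ} (a : Fin (2 * r) → ℕ) (k l : Fin r → ℕ) (τ : Perm (Fin r)) :
    dM q a k (l ∘ τ) = (((Perm.sign τ : ℤˣ) : ℤ) : ℝ) * dM q a k l := by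
  set ρ : Fin 2 → Perm (Fin r) := fun b => if b = 0 then 1 else τ with hρ
  have h1 : Perm.sign (Equiv.prodCongrLeft ρ : Perm (Fin r × Fin 2)) = Perm.sign τ := by
    rw [Equiv.Perm.sign_prodCongrLeft, Fin.prod_univ_two]
    simp [hρ]
  unfold dM
  rw [← h1, ← Matrix.det_permute]
  congr 1
  ext ⟨i, b⟩ p'
  simp only [Matrix.of_apply, Matrix.submatrix_apply, id, Equiv.prodCongrLeft_apply]
  by_cases hb : b = 0
  · simp [hb, hρ]
  · simp [hb, hρ]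

theorem dis {q : ℝ} (hq0 : 0 < q) (hq1 : q < 1) {r : ℕ} (a : Fin (2 * r) → ℕ) (ha : Antitone a)
    (L : ℕ) (μ : ℕ → ℝ) (hμ : ∀ k, 0 ≤ μ k) (ν : ℕ → ℝ) (hν : ∀ k, 0 ≤ ν k) :
    0 ≤ pfs (fun x y : Fin (2 * r) => ∑ e : Fin L × Fin L,
      (μ e.1 * ν e.2 / (q ^ (2 * (e.1 : ℕ)) - q ^ (2 * (e.2 : ℕ) + 1))) *
        ((q ^ (2 * (e.1 : ℕ))) ^ a x * (q ^ (2 * (e.2 : ℕ) + 1)) ^ a y -
          (q ^ (2 * (e.2 : ℕ) + 1)) ^ a x * (q ^ (2 * (e.1 : ℕ))) ^ a y)) := by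
  rw [deBruijn (fun e : Fin L × Fin L => μ e.1 * ν e.2 / (q ^ (2 * (e.1 : ℕ)) - q ^ (2 * (e.2 : ℕ) + 1)))
    (fun e x => (q ^ (2 * (e.1 : ℕ))) ^ a x) (fun e x => (q ^ (2 * (e.2 : ℕ) + 1)) ^ a x)]
  refine mul_nonneg (by positivity) ?_
  set H : (Fin r → Fin L) → (Fin r → Fin L) → ℝ := fun k l =>
    (∏ i, μ (k i) * ν (l i) / (q ^ (2 * (k i : ℕ)) - q ^ (2 * (l i : ℕ) + 1))) *
      dM q a (fun i => (k i : ℕ)) (fun i => (l i : ℕ)) with hH
  have h1 : ∑ f : Fin r → Fin L × Fin L, (∏ i, μ (f i).1 * ν (f i).2 /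
      (q ^ (2 * ((f i).1 : ℕ)) - q ^ (2 * ((f i).2 : ℕ) + 1))) *
      (Matrix.of fun p p' : Fin r × Fin 2 => if p.2 = 0 then (q ^ (2 * ((f p.1).1 : ℕ))) ^ a (pe r p')
        else (q ^ (2 * ((f p.1).2 : ℕ) + 1)) ^ a (pe r p')).det = ∑ k, ∑ l, H k l := by
    rw [← Fintype.sum_prod_type']
    exact Fintype.sum_equiv (Equiv.arrowProdEquivProdArrow (Fin r) (fun _ => Fin L) (fun _ => Fin L)) _ _
      (fun f => rfl)
  rw [h1]
  refine Finset.sum_nonneg fun k _ => ?_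
  have h2 : (Fintype.card (Perm (Fin r)) : ℝ) * ∑ l, H k l = ∑ l, ∑ τ : Perm (Fin r), H k (l ∘ τ) := by
    rw [Finset.sum_comm]
    have : ∀ τ : Perm (Fin r), ∑ l, H k (l ∘ τ) = ∑ l, H k l := fun τ =>
      Equiv.sum_comp (Equiv.arrowCongr τ.symm (Equiv.refl (Fin L))) (fun l => H k l)
    simp only [this]
    rw [Finset.sum_const, Finset.card_univ, nsmul_eq_mul]
  have h3 : ∀ l, 0 ≤ ∑ τ : Perm (Fin r), H k (l ∘ τ) := by
    intro l
    have h4 : ∑ τ : Perm (Fin r), H k (l ∘ τ) = (∏ i, μ (k i)) * (∏ i, ν (l i)) *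
        (dK q (fun i => (k i : ℕ)) (fun i => (l i : ℕ)) * dM q a (fun i => (k i : ℕ)) (fun i => (l i : ℕ))) := by
      have h5 : dK q (fun i => (k i : ℕ)) (fun i => (l i : ℕ)) = ∑ τ : Perm (Fin r),
          (((Perm.sign τ : ℤˣ) : ℤ) : ℝ) * ∏ i, 1 / (q ^ (2 * (k i : ℕ)) - q ^ (2 * (l (τ i) : ℕ) + 1)) := by
        unfold dK
        rw [← Matrix.det_transpose, Matrix.det_apply']
        rfl
      rw [h5, Finset.sum_mul, Finset.mul_sum]
      refine Finset.sum_congr rfl fun τ _ => ?_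
      have h6 : dM q a (fun i => (k i : ℕ)) (fun i => ((l ∘ τ) i : ℕ)) =
          (((Perm.sign τ : ℤˣ) : ℤ) : ℝ) * dM q a (fun i => (k i : ℕ)) (fun i => (l i : ℕ)) :=
        dM_perm q a (fun i => (k i : ℕ)) (fun i => (l i : ℕ)) τ
      have h7 : ∏ i, μ (k i) * ν ((l ∘ τ) i) / (q ^ (2 * (k i : ℕ)) - q ^ (2 * ((l ∘ τ) i : ℕ) + 1)) =
          (∏ i, μ (k i)) * (∏ i, ν (l i)) *
            ∏ i, 1 / (q ^ (2 * (k i : ℕ)) - q ^ (2 * (l (τ i) : ℕ) + 1)) := by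
        rw [← Equiv.prod_comp τ (fun i => ν (l i)), ← Finset.prod_mul_distrib, ← Finset.prod_mul_distrib]
        refine Finset.prod_congr rfl fun i _ => ?_
        simp only [Function.comp_apply]
        ring
      show (∏ i, μ (k i) * ν ((l ∘ τ) i) / (q ^ (2 * (k i : ℕ)) - q ^ (2 * ((l ∘ τ) i : ℕ) + 1))) *
        dM q a (fun i => (k i : ℕ)) (fun i => ((l ∘ τ) i : ℕ)) = _
      rw [h6, h7]
      ring
    rw [h4]
    exact mul_nonneg (mul_nonneg (Finset.prod_nonneg fun i _ => hμ _) (Finset.prod_nonneg fun i _ => hν _))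
      (dK_dM hq0 hq1 a ha _ _)
  have h8 : 0 ≤ (Fintype.card (Perm (Fin r)) : ℝ) * ∑ l, H k l := by
    rw [h2]
    exact Finset.sum_nonneg fun l _ => h3 l
  have h9 : (0 : ℝ) < Fintype.card (Perm (Fin r)) := by
    exact_mod_cast Fintype.card_pos
  exact nonneg_of_mul_nonneg_right h8 h9

end Pool.Agent.H69.PF
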