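import Mathlib

/-!
# Generalized Vandermonde determinants at powers of `q`

`gv`: for `0 ≤ q ≤ 1`, `n` strictly decreasing, `a` strictly increasing the determinant of `(q ^ n i) ^ a j` is `≥ 0`.
-/

set_option autoImplicit false

namespace Pool.Agent.H69.PF

open Finset Matrix

/-- the determinant expanded along a first column of ones -/
theorem det_ones {N : ℕ} (A : Matrix (Fin (N + 1)) (Fin (N + 1)) ℝ) (h : ∀ i, A i 0 = 1) :
    A.det = (Matrix.of fun i j : Fin N => A i.succ j.succ - A i.castSucc j.succ).det := by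
  let B : Matrix (Fin (N + 1)) (Fin (N + 1)) ℝ :=
    Matrix.of (Fin.cons (A 0) fun i j => A i.succ j - A i.castSucc j)
  have h0 : ∀ j, B 0 j = A 0 j := fun j => rfl
  have h1 : ∀ (i : Fin N) j, B i.succ j = A i.succ j - A i.castSucc j := fun i j => rfl
  have h2 : A.det = B.det :=
    Matrix.det_eq_of_forall_row_eq_smul_add_pred (fun _ => 1) (fun j => (h0 j).symm)
      (fun i j => by rw [h1]; ring)
  rw [h2, Matrix.det_succ_column_zero, Finset.sum_eq_single (0 : Fin (N + 1))]
  · rw [h0, h]
    simp only [Fin.val_zero, pow_zero, one_mul]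
    congr 1
  · intro i _ hi
    obtain ⟨k, rfl⟩ := Fin.exists_succ_eq.2 hi
    rw [h1, h, h]
    ring
  · intro h3
    exact absurd (Finset.mem_univ _) h3

theorem geo_split {q : ℝ} (b : ℕ) : ∀ {m n : ℕ}, m ≤ n →
    (q ^ m) ^ b - (q ^ n) ^ b = ∑ k ∈ Finset.Ico m n, (q ^ k) ^ b * (1 - q ^ b) := by
  intro m n hmn
  induction n, hmn using Nat.le_induction with
  | base => simp
  | succ n hmn ih =>
    rw [Finset.sum_Ico_succ_top hmn, ← ih]
    have h1 : (q ^ (n + 1)) ^ b = (q ^ n) ^ b * q ^ b := by
      rw [← mul_pow, ← pow_succ]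
    rw [h1]
    ring

theorem gv {q : ℝ} (hq0 : 0 ≤ q) (hq1 : q ≤ 1) : ∀ {N : ℕ} (n a : Fin N → ℕ), StrictAnti n → StrictMono a →
    0 ≤ (Matrix.of fun i j : Fin N => (q ^ n i) ^ a j).det := by
  intro N
  induction N with
  | zero =>
    intro n a _ _
    simp
  | succ N ih =>
    intro n a hn ha
    have hb : ∀ j, a j = a 0 + (a j - a 0) := fun j => by
      have := ha.monotone (Fin.zero_le j)
      omega
    have h1 : (Matrix.of fun i j : Fin (N + 1) => (q ^ n i) ^ a j) =
        Matrix.of fun i j : Fin (N + 1) => (q ^ n i) ^ a 0 * (Matrix.of fun i j : Fin (N + 1) => (q ^ n i) ^ (a j - a 0)) i j := by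
      ext i j
      simp only [Matrix.of_apply]
      rw [← pow_add, ← hb]
    rw [h1, Matrix.det_mul_column]
    refine mul_nonneg (Finset.prod_nonneg fun i _ => by positivity) ?_
    rw [det_ones _ (fun i => by simp)]
    have h2 : (Matrix.of fun i j : Fin N =>
        (Matrix.of fun i j : Fin (N + 1) => (q ^ n i) ^ (a j - a 0)) i.succ j.succ -
        (Matrix.of fun i j : Fin (N + 1) => (q ^ n i) ^ (a j - a 0)) i.castSucc j.succ) =
        fun i : Fin N => ∑ k ∈ Finset.Ico (n i.succ) (n i.castSucc),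
          (fun j : Fin N => (q ^ k) ^ (a j.succ - a 0) * (1 - q ^ (a j.succ - a 0))) := by
      funext i j
      simp only [Matrix.of_apply, Finset.sum_apply]
      exact geo_split _ (hn (Fin.castSucc_lt_succ (i := i))).le
    rw [h2]
    have h3 := MultilinearMap.map_sum_finset (Matrix.detRowAlternating (n := Fin N) (R := ℝ)).toMultilinearMap
      (fun (i : Fin N) (k : ℕ) => (fun j : Fin N => (q ^ k) ^ (a j.succ - a 0) * (1 - q ^ (a j.succ - a 0))))
      (fun i : Fin N => Finset.Ico (n i.succ) (n i.castSucc))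
    have h4 : Matrix.det (fun i : Fin N => ∑ k ∈ Finset.Ico (n i.succ) (n i.castSucc),
          (fun j : Fin N => (q ^ k) ^ (a j.succ - a 0) * (1 - q ^ (a j.succ - a 0)))) =
        ∑ r ∈ Fintype.piFinset fun i : Fin N => Finset.Ico (n i.succ) (n i.castSucc),
          Matrix.det (fun i : Fin N => fun j : Fin N => (q ^ r i) ^ (a j.succ - a 0) * (1 - q ^ (a j.succ - a 0))) := h3
    rw [h4]
    refine Finset.sum_nonneg fun r hr => ?_
    rw [Fintype.mem_piFinset] at hr
    have h5 : (fun i : Fin N => fun j : Fin N => (q ^ r i) ^ (a j.succ - a 0) * (1 - q ^ (a j.succ - a 0))) =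
        Matrix.of fun i j : Fin N => (1 - q ^ (a j.succ - a 0)) *
          (Matrix.of fun i j : Fin N => (q ^ r i) ^ (a j.succ - a 0)) i j := by
      funext i j
      simp only [Matrix.of_apply]
      ring
    rw [h5, Matrix.det_mul_row]
    refine mul_nonneg (Finset.prod_nonneg fun j _ => ?_) (ih r (fun j => a j.succ - a 0) ?_ ?_)
    · have : q ^ (a j.succ - a 0) ≤ 1 := pow_le_one₀ hq0 hq1
      linarith
    · intro i j hij
      have h6 := (Finset.mem_Ico.1 (hr i)).1
      have h7 := (Finset.mem_Ico.1 (hr j)).2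
      have h8 : n j.castSucc ≤ n i.succ := hn.antitone (by
        rw [Fin.le_def]
        simp only [Fin.val_succ, Fin.val_castSucc]
        exact hij)
      omega
    · intro i j hij
      have h6 : a i.succ < a j.succ := ha (Fin.succ_lt_succ_iff.2 hij)
      have h7 : a 0 ≤ a i.succ := ha.monotone (Fin.zero_le _)
      show a i.succ - a 0 < a j.succ - a 0
      omega

end Pool.Agent.H69.PF
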