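import Pool.Agent.H69.PF.Gv
import Pool.Agent.H69.PF.Cau
import Pool.Agent.H69.PF.Bru

/-!
# Signs of generalized Vandermonde determinants
-/

set_option autoImplicit false

namespace Pool.Agent.H69.PF

open Finset Matrix Equiv Pool.Agent.H47.PF

/-- the Vandermonde product -/
def Wp {N : ℕ} (x : Fin N → ℝ) : ℝ := ∏ i, ∏ j ∈ Ioi i, (x i - x j)

theorem Wp_eq {N : ℕ} (x : Fin N → ℝ) :
    Wp x = (∏ i : Fin N, ∏ _j ∈ Ioi i, (-1 : ℝ)) * (Matrix.vandermonde x).det := by
  rw [Matrix.det_vandermonde, ← Finset.prod_mul_distrib]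
  refine Finset.prod_congr rfl fun i _ => ?_
  rw [← Finset.prod_mul_distrib]
  refine Finset.prod_congr rfl fun j _ => ?_
  ring

theorem Wp_perm {N : ℕ} (x : Fin N → ℝ) (σ : Perm (Fin N)) :
    Wp (x ∘ σ) = (((Perm.sign σ : ℤˣ) : ℤ) : ℝ) * Wp x := by
  rw [Wp_eq, Wp_eq]
  have h : Matrix.vandermonde (x ∘ σ) = (Matrix.vandermonde x).submatrix σ id := rfl
  rw [h, Matrix.det_permute]
  ring

theorem sign_sq {N : ℕ} (σ : Perm (Fin N)) :
    (((Perm.sign σ : ℤˣ) : ℤ) : ℝ) * (((Perm.sign σ : ℤˣ) : ℤ) : ℝ) = 1 := by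
  rcases Int.units_eq_one_or (Perm.sign σ) with h | h <;> simp [h]

theorem gv2 {q : ℝ} (hq0 : 0 ≤ q) (hq1 : q ≤ 1) {N : ℕ} (n a : Fin N → ℕ) (ha : Antitone a) :
    0 ≤ (Matrix.of fun i j : Fin N => (q ^ n i) ^ a j).det * Wp fun i => q ^ n i := by
  by_cases hai : Function.Injective a
  swap
  · have : (Matrix.of fun i j : Fin N => (q ^ n i) ^ a j).det = 0 := by
      rw [Function.Injective] at hai
      push Not at hai
      obtain ⟨i, j, hij, hne⟩ := hai
      refine Matrix.det_zero_of_column_eq hne fun k => ?_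
      simp only [Matrix.of_apply, hij]
    rw [this, zero_mul]
  by_cases hn : Function.Injective n
  swap
  · have : (Matrix.of fun i j : Fin N => (q ^ n i) ^ a j).det = 0 := by
      rw [Function.Injective] at hn
      push Not at hn
      obtain ⟨i, j, hij, hne⟩ := hn
      refine Matrix.det_zero_of_row_eq hne ?_
      funext k
      simp only [Matrix.of_apply, hij]
    rw [this, zero_mul]
  have hsa : StrictAnti a := fun i j hij => lt_of_le_of_ne (ha hij.le) fun h => hij.ne' (hai h)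
  set τ := Tuple.sort n with hτ
  have hm : StrictMono (n ∘ τ) := (Tuple.monotone_sort n).strictMono_of_injective (hn.comp τ.injective)
  have h1 : (Matrix.of fun i j : Fin N => (q ^ (n ∘ τ) i) ^ a j).det =
      (((Perm.sign τ : ℤˣ) : ℤ) : ℝ) * (Matrix.of fun i j : Fin N => (q ^ n i) ^ a j).det := by
    rw [← Matrix.det_permute]
    rfl
  have h2 : Wp (fun i => q ^ (n ∘ τ) i) = (((Perm.sign τ : ℤˣ) : ℤ) : ℝ) * Wp fun i => q ^ n i :=
    Wp_perm (fun i => q ^ n i) τ
  have h3 : 0 ≤ (Matrix.of fun i j : Fin N => (q ^ (n ∘ τ) i) ^ a j).det := by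
    rw [← Matrix.det_submatrix_equiv_self (Fin.revPerm)]
    exact gv hq0 hq1 (fun i => (n ∘ τ) (Fin.rev i)) (fun i => a (Fin.rev i))
      (fun i j hij => hm (Fin.rev_lt_rev.2 hij)) (fun i j hij => hsa (Fin.rev_lt_rev.2 hij))
  have h4 : 0 ≤ Wp (fun i => q ^ (n ∘ τ) i) := by
    refine Finset.prod_nonneg fun i _ => Finset.prod_nonneg fun j hj => ?_
    have h5 : (n ∘ τ) i < (n ∘ τ) j := hm (Finset.mem_Ioi.1 hj)
    have := pow_le_pow_of_le_one hq0 hq1 h5.le
    linarith
  have h5 := mul_nonneg h3 h4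
  rw [h1, h2] at h5
  have h6 := sign_sq τ
  calc (0 : ℝ) ≤ _ := h5
    _ = ((((Perm.sign τ : ℤˣ) : ℤ) : ℝ) * (((Perm.sign τ : ℤˣ) : ℤ) : ℝ)) *
        ((Matrix.of fun i j : Fin N => (q ^ n i) ^ a j).det * Wp fun i => q ^ n i) := by ring
    _ = _ := by rw [h6, one_mul]

theorem p0_lt_p0 {n : ℕ} (i j : Fin n) : p0 i < p0 j ↔ i < j := by
  simp only [p0, Fin.lt_def]; omega
theorem p1_lt_p1 {n : ℕ} (i j : Fin n) : p1 i < p1 j ↔ i < j := by
  simp only [p1, Fin.lt_def]; omega
theorem p0_lt_p1 {n : ℕ} (i j : Fin n) : p0 i < p1 j ↔ i ≤ j := by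
  simp only [p0, p1, Fin.lt_def, Fin.le_def]; omega
theorem p1_lt_p0 {n : ℕ} (i j : Fin n) : p1 i < p0 j ↔ i < j := by
  simp only [p0, p1, Fin.lt_def]; omega

theorem prod_Ioi_ite {N : ℕ} (g : Fin N → Fin N → ℝ) :
    ∏ i, ∏ j ∈ Ioi i, g i j = ∏ i, ∏ j, (if i < j then g i j else 1) := by
  refine Finset.prod_congr rfl fun i _ => ?_
  rw [← Finset.prod_filter]
  refine Finset.prod_congr ?_ fun _ _ => rfl
  ext j
  simp

theorem Wp_pairs {n : ℕ} (y : Fin (2 * n) → ℝ) (s t : Fin n → ℝ) (hs : ∀ i, y (p0 i) = s i)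
    (ht : ∀ i, y (p1 i) = t i) :
    Wp y = (∏ i, ∏ j ∈ Ioi i, ((s i - s j) * (t j - t i))) * ∏ i, ∏ j, (s i - t j) := by
  have h1 : Wp y = ∏ i : Fin n, ∏ j : Fin n, ((if i < j then s i - s j else 1) *
      (if i ≤ j then s i - t j else 1) * ((if i < j then t i - s j else 1) *
      (if i < j then t i - t j else 1))) := by
    unfold Wp
    rw [prod_Ioi_ite, ← Equiv.prod_comp (pe n), Fintype.prod_prod_type]
    refine Finset.prod_congr rfl fun i _ => ?_
    rw [Fin.prod_univ_two, ← Equiv.prod_comp (pe n), ← Equiv.prod_comp (pe n), Fintype.prod_prod_type,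
      Fintype.prod_prod_type, ← Finset.prod_mul_distrib]
    refine Finset.prod_congr rfl fun j _ => ?_
    rw [Fin.prod_univ_two, Fin.prod_univ_two]
    simp only [pe_zero, pe_one, p0_lt_p0, p1_lt_p1, p0_lt_p1, p1_lt_p0, hs, ht]
  have h2 : ∏ i : Fin n, ∏ j : Fin n, (if i < j then t i - s j else 1) =
      (∏ i : Fin n, ∏ j : Fin n, (if i < j then (-1 : ℝ) else 1)) *
        ∏ i : Fin n, ∏ j : Fin n, (if j < i then s i - t j else 1) := by
    rw [Finset.prod_comm (f := fun i j : Fin n => if j < i then s i - t j else 1), ← Finset.prod_mul_distrib]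
    refine Finset.prod_congr rfl fun i _ => ?_
    rw [← Finset.prod_mul_distrib]
    refine Finset.prod_congr rfl fun j _ => ?_
    split_ifs <;> ring
  have h3 : ∏ i : Fin n, ∏ j : Fin n, (if i < j then t i - t j else 1) =
      (∏ i : Fin n, ∏ j : Fin n, (if i < j then (-1 : ℝ) else 1)) *
        ∏ i : Fin n, ∏ j : Fin n, (if i < j then t j - t i else 1) := by
    rw [← Finset.prod_mul_distrib]
    refine Finset.prod_congr rfl fun i _ => ?_
    rw [← Finset.prod_mul_distrib]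
    refine Finset.prod_congr rfl fun j _ => ?_
    split_ifs <;> ring
  have h4 : (∏ i : Fin n, ∏ j : Fin n, (if i < j then (-1 : ℝ) else 1)) *
      (∏ i : Fin n, ∏ j : Fin n, (if i < j then (-1 : ℝ) else 1)) = 1 := by
    rw [← Finset.prod_mul_distrib]
    refine Finset.prod_eq_one fun i _ => ?_
    rw [← Finset.prod_mul_distrib]
    refine Finset.prod_eq_one fun j _ => ?_
    split_ifs <;> ring
  have h5 : ∏ i : Fin n, ∏ j : Fin n, (s i - t j) =
      (∏ i : Fin n, ∏ j : Fin n, (if i ≤ j then s i - t j else 1)) *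
        ∏ i : Fin n, ∏ j : Fin n, (if j < i then s i - t j else 1) := by
    rw [← Finset.prod_mul_distrib]
    refine Finset.prod_congr rfl fun i _ => ?_
    rw [← Finset.prod_mul_distrib]
    refine Finset.prod_congr rfl fun j _ => ?_
    rcases le_or_gt i j with h | h
    · rw [if_pos h, if_neg (not_lt.2 h), mul_one]
    · rw [if_neg (not_le.2 h), if_pos h, one_mul]
  rw [h1, h5, prod_Ioi_ite]
  simp only [Finset.prod_mul_distrib]
  rw [h2, h3]
  have h6 : ∏ i : Fin n, ∏ j : Fin n, (if i < j then (s i - s j) * (t j - t i) else 1) =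
      (∏ i : Fin n, ∏ j : Fin n, (if i < j then s i - s j else 1)) *
        ∏ i : Fin n, ∏ j : Fin n, (if i < j then t j - t i else 1) := by
    rw [← Finset.prod_mul_distrib]
    refine Finset.prod_congr rfl fun i _ => ?_
    rw [← Finset.prod_mul_distrib]
    refine Finset.prod_congr rfl fun j _ => ?_
    split_ifs <;> ring
  rw [h6]
  linear_combination ((∏ i : Fin n, ∏ j : Fin n, (if i < j then s i - s j else 1)) *
    (∏ i : Fin n, ∏ j : Fin n, (if i ≤ j then s i - t j else 1)) *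
    (∏ i : Fin n, ∏ j : Fin n, (if j < i then s i - t j else 1)) *
    (∏ i : Fin n, ∏ j : Fin n, (if i < j then t j - t i else 1))) * h4

end Pool.Agent.H69.PF
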